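import Pool.Agent.Y328.BI.TestA
import Pool.Agent.Y706.BI.Stm

/-!
# Project BI, job TEST: a set which misses a disc of positive mass has large energy
-/

set_option autoImplicit false

namespace Pool.Agent.Y328.BI

open Pool.Agent.W277.UB Pool.Agent.W277.UG Pool.Agent.W277.UH Pool.Agent.Y706.BI Finset

universe u

lemma iter_le {Ω : Type u} [NormedField Ω] [IsUltrametricDist Ω] (T : BB Ω) (n : ℕ)
    (X : Ω × Ω) (hX : ‖X‖ ≤ 1) : ‖T.S.F^[n] X‖ ≤ 1 := by
  induction n with
  | zero => simpa using hX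
  | succ n ih =>
    rw [Function.iterate_succ_apply']
    exact (HS.le_gs ih).trans T.hgs.le

open Classical in
lemma sum_off {ι : Type u} [Fintype ι] (L : ι → ι → ℝ) (a : ι → ℝ) (C : ℝ) :
    (∑ i, ∑ j, if i = j then 0 else (L i j + a i + a j + C)) =
      (∑ i, ∑ j, if i = j then 0 else L i j) +
        2 * ((Fintype.card ι : ℝ) - 1) * ∑ i, a i +
        (Fintype.card ι : ℝ) * ((Fintype.card ι : ℝ) - 1) * C := by
  have e : ∀ i j, (if i = j then 0 else (L i j + a i + a j + C)) =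
      ((if i = j then 0 else L i j) + (a i + a j + C)) - if i = j then (2 * a i + C) else 0 := by
    intro i j
    by_cases h : i = j
    · subst h
      simp
      ring
    · simp only [h, if_false]
      ring
  simp_rw [e]
  simp only [Finset.sum_sub_distrib, Finset.sum_add_distrib, Finset.sum_ite_eq, Finset.mem_univ,
    if_true, Finset.sum_const, Finset.card_univ, nsmul_eq_mul]
  rw [← Finset.mul_sum, ← Finset.mul_sum]
  ring

open Classical in
theorem t_TEST : S_GRN.{u} → S_TEST.{u} := by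
  intro hG Ω _ _ _ hnat T B n ι _ _ p hpp y s₁ s₂ κ t hs1 h12 ht I hI hη hcount
  obtain ⟨hρ, -, hG0, -, hGn, -, -, -, -, -⟩ := hG Ω hnat T
  have hHd : (T.S.iter n).d = T.S.d ^ n := HS.iter_d _ _
  set D : ℝ := (T.S.d : ℝ) ^ n with hD
  have hHd' : ((T.S.iter n).d : ℝ) = D := by rw [hHd]; push_cast; rfl
  have hd : (2 : ℝ) ≤ T.S.d := by exact_mod_cast T.hd
  have hD1 : 1 ≤ D := one_le_pow₀ (by linarith)
  have hdm : 0 < (T.S.d : ℝ) - 1 := by linarith
  set C : ℝ := 2 * T.ρ / ((T.S.d : ℝ) - 1) with hC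
  have hC0 : 0 ≤ C := by positivity
  have hC2 : C ≤ 2 * T.ρ := by
    rw [hC, div_le_iff₀ hdm]
    nlinarith
  -- the size of the iterate
  have hlogn : ∀ X : UV Ω, Real.log ‖(T.S.iter n).F X.1‖ =
      D * G0 T.S X - G0 T.S ((fU T.S)^[n] X) := by
    intro X
    rw [HS.iter_F]
    exact hGn n X
  have hup : ∀ X : UV Ω, Real.log ‖(T.S.iter n).F X.1‖ ≤ D * G0 T.S X + 2 * T.ρ := by
    intro X
    rw [hlogn]
    have := (hG0 ((fU T.S)^[n] X)).1
    linarith
  have hlo : ∀ X : UV Ω, -(2 * T.ρ * D) ≤ Real.log ‖(T.S.iter n).F X.1‖ := by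
    intro X
    rw [hlogn]
    have h1 := (hG0 ((fU T.S)^[n] X)).2
    have h2 := (hG0 X).1
    nlinarith
  have hg : Real.log (T.S.iter n).gs ≤ 0 := by
    obtain ⟨E, hE⟩ := HS.gs_attained (S := T.S.iter n) B
    obtain ⟨i, hi⟩ := Infinite.exists_notMem_finset E
    rw [← hE i hi, HS.iter_F]
    exact Real.log_nonpos (norm_nonneg _) (iter_le T n _ (B.unit i).le)
  have hmain := energy2 B (T.S.iter n) (fun i => (p i).1) (fun i => (p i).2)
    (fun i j hij => hpp i j hij) (2 * T.ρ * D + s₂) (by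
      have : 0 ≤ 2 * T.ρ * D := by positivity
      linarith) (fun i => by
        have := hlo (p i)
        show -Real.log ‖(T.S.iter n).F (p i).1‖ + _ ≤ _
        linarith) y.1 y.2 s₁ s₂ κ t hs1 h12 (by
      have : 0 ≤ 2 * T.ρ * D := by positivity
      linarith) ht I hI (by
      intro i hi
      obtain ⟨c, η, h1, h2⟩ := hη i hi
      exact ⟨c, fun l => (η l).1, h1, h2⟩) hcount
  set N : ℝ := (Fintype.card ι : ℝ) with hN
  have hNpos : 0 < N := by rw [hN]; exact_mod_cast Fintype.card_pos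
  set Ep := ∑ i, ∑ j, (if i = j then 0 else -Real.log ‖wd (p i).1 (p j).1‖) with hEp
  have hDpos : 0 < D := by linarith
  rw [hHd'] at hmain
  -- the sum of the logarithms
  have hsum : ∑ i, Real.log ‖(T.S.iter n).F (p i).1‖ ≤ D * ∑ i, G0 T.S (p i) + N * (2 * T.ρ) := by
    refine (Finset.sum_le_sum fun i _ => hup (p i)).trans (le_of_eq ?_)
    rw [Finset.sum_add_distrib, ← Finset.mul_sum, Finset.sum_const, Finset.card_univ,
      nsmul_eq_mul]
  set A := ∑ i, G0 T.S (p i) with hA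
  have hA0 : A ≤ 0 := Finset.sum_nonpos fun i _ => (hG0 (p i)).2
  have h1 : 2 / (N * D) * ∑ i, Real.log ‖(T.S.iter n).F (p i).1‖ ≤ 2 * A / N + 4 * T.ρ / D := by
    refine (mul_le_mul_of_nonneg_left hsum (by positivity)).trans (le_of_eq ?_)
    field_simp
    ring
  have h2 : (T.S.iter n).Res / D ^ 2 ≤ C := by
    have h3 := HS.iter_Res T.S n
    rw [T.hRes, ← hD] at h3
    have h4 : (T.S.iter n).Res = C * (D * (D - 1)) := by
      have hd0 : (T.S.d : ℝ) ≠ 0 := by linarith
      have h5 : (T.S.d : ℝ) * ((T.S.iter n).Res * ((T.S.d : ℝ) - 1)) =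
          (T.S.d : ℝ) * (2 * T.ρ * (D * (D - 1))) := by linarith
      have h6 := mul_left_cancel₀ hd0 h5
      rw [hC, div_mul_eq_mul_div, eq_div_iff hdm.ne']
      exact h6
    rw [h4, div_le_iff₀ (by positivity)]
    nlinarith
  have h3 : (∑ i, ∑ j, if i = j then 0 else gg T.S (p i) (p j)) =
      Ep + 2 * (N - 1) * A + N * (N - 1) * C := by
    have e : ∀ i j, gg T.S (p i) (p j) = (fun i j => -Real.log ‖wd (p i).1 (p j).1‖) i j +
        G0 T.S (p i) + G0 T.S (p j) + C := by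
      intro i j
      unfold gg
      rw [T.hRes, hC]
      have hd0 : (T.S.d : ℝ) ≠ 0 := by linarith
      congr 1
      field_simp
    simp_rw [e]
    exact sum_off _ _ _
  rw [h3]
  refine hmain.trans ?_
  have h4 : (Ep + 2 * (N - 1) * A + N * (N - 1) * C) / N ^ 2 +
      (4 * T.ρ + 2 * T.ρ * D + s₂) / N + 4 * T.ρ / D -
      (Ep / N ^ 2 + (2 * T.ρ * D + s₂) / N + (2 * A / N + 4 * T.ρ / D) + C) =
      (-(2 * A)) / N ^ 2 + (4 * T.ρ - C) / N := by
    field_simp
    ring
  have h5 : 0 ≤ (-(2 * A)) / N ^ 2 + (4 * T.ρ - C) / N :=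
    add_nonneg (div_nonneg (by linarith) (by positivity)) (div_nonneg (by linarith) hNpos.le)
  linarith

end Pool.Agent.Y328.BI
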