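import Pool.Agent.W277.UH.L5

/-!
# Project BI, job TEST: the energy inequality with a test disc
-/

set_option autoImplicit false

namespace Pool.Agent.Y328.BI

open Pool.Agent.W277.UG Pool.Agent.W277.UH Finset

lemma seq_in (I : Set ℕ) (hI : I.Infinite) (E : Finset ℕ) :
    ∃ φ : ℕ → ℕ, (∀ m, φ m ∈ I ∧ φ m ∉ E) ∧ ∀ m n, m ≠ n → φ m ≠ φ n := by
  obtain ⟨f, h1, h2⟩ := exists_seq_of_forall_finset_exists (fun i : ℕ => i ∈ I ∧ i ∉ E)
    (fun i j => i ≠ j) (by
      intro s _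
      obtain ⟨y, hyI, hy⟩ := hI.exists_notMem_finset (E ∪ s)
      rw [Finset.mem_union, not_or] at hy
      exact ⟨y, ⟨hyI, hy.1⟩, fun x hx h => hy.2 (h ▸ hx)⟩)
  refine ⟨f, h1, fun m n hmn => ?_⟩
  rcases lt_or_gt_of_ne hmn with h | h
  · exact h2 m n h
  · exact (h2 n m h).symm

variable {Ω : Type*} [NormedField Ω] [IsUltrametricDist Ω]

lemma win_low {s₁ s₂ T : ℝ} {X Y : Ω × Ω}
    (h : Real.exp (-s₁) ≤ ‖wd X Y‖) : win s₁ s₂ (kw T X Y) = 0 := by
  apply win_bot
  have hpos : 0 < ‖wd X Y‖ := (Real.exp_pos _).trans_le h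
  refine (kw_le_log (norm_pos_iff.mp hpos)).trans ?_
  have := (Real.le_log_iff_exp_le hpos).mpr h
  linarith

lemma win_high {s₁ s₂ T : ℝ} (h12 : s₁ ≤ s₂) (hT : s₂ ≤ T) {X Y : Ω × Ω}
    (h : ‖wd X Y‖ ≤ Real.exp (-s₂)) : win s₁ s₂ (kw T X Y) = s₂ - s₁ := by
  apply win_top _ _ _ h12
  by_cases h0 : wd X Y = 0
  · have : kw T X Y = T := by unfold kw; simp [h0]
    rw [this]; exact hT
  · rw [kw_ne h0]
    apply le_min _ hT
    have := (Real.log_le_iff_le_exp (norm_pos_iff.mpr h0)).mpr h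
    linarith

open Classical in
/-- **Energy inequality with a test disc**. -/
theorem energy2 {ι : Type*} [Fintype ι] [Nonempty ι] (B : Fam Ω) (H : HS Ω)
    (p : ι → Ω × Ω) (hp : ∀ i, ‖p i‖ = 1) (hpp : ∀ i j, i ≠ j → wd (p i) (p j) ≠ 0) (T : ℝ)
    (hT0 : 0 ≤ T) (hT : ∀ i, -Real.log ‖H.F (p i)‖ + Real.log H.gs ≤ T)
    (y : Ω × Ω) (hy : ‖y‖ = 1) (s₁ s₂ κ t : ℝ) (hs1 : 0 ≤ s₁) (h12 : s₁ < s₂) (hs2 : s₂ ≤ T)
    (ht : 0 ≤ t) (I : Set ℕ) (hI : I.Infinite)
    (hη : ∀ i ∈ I, ∃ (c : Ω) (η : Fin H.d → Ω × Ω), H.IsRS (B.b i) c η ∧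
      κ * (H.d : ℝ) ≤ ((univ.filter fun l => ‖wd (η l) y‖ ≤ Real.exp (-s₂)).card : ℝ))
    (hcount : ((univ.filter fun i => ‖wd (p i) y‖ < Real.exp (-s₁)).card : ℝ) ≤
      (κ - t) * Fintype.card ι) :
    t ^ 2 * (s₂ - s₁) ≤
      (∑ i, ∑ j, if i = j then 0 else -Real.log ‖wd (p i) (p j)‖) / (Fintype.card ι : ℝ) ^ 2 +
      T / Fintype.card ι + 2 / (Fintype.card ι * H.d) * ∑ i, Real.log ‖H.F (p i)‖ +
      H.Res / (H.d : ℝ) ^ 2 := by
  set N : ℝ := (Fintype.card ι : ℝ) with hN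
  have hNpos : 0 < N := by rw [hN]; exact_mod_cast Fintype.card_pos
  set D : ℝ := (H.d : ℝ) with hD
  have hDpos : 0 < D := by rw [hD]; exact_mod_cast H.hd
  set Ep := ∑ i, ∑ j, if i = j then 0 else -Real.log ‖wd (p i) (p j)‖ with hEp
  set g := H.gs with hg
  obtain ⟨E1, hE1⟩ := HS.target_generic (S := H) B
  obtain ⟨E2, hE2⟩ : ∃ E2 : Finset ℕ, ∀ m, m ∉ E2 → ∀ i, ‖wd (H.F (p i)) (B.b m)‖ =
      ‖H.F (p i)‖ := by
    choose t W ht hW hWe htn using fun i => exists_unit (H.F (p i)) (H.nz _ (by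
      intro h0
      have := hp i
      rw [h0] at this
      simp at this))
    obtain ⟨E2, hE2⟩ := bad_finite B (Finset.univ.image W) (by
      intro U hU
      rw [Finset.mem_image] at hU
      obtain ⟨i, _, rfl⟩ := hU
      exact hW i)
    refine ⟨E2, fun m hm i => ?_⟩
    rw [hWe i, wd_smul_left, norm_mul, norm_smul, hW i, wd_comm, norm_neg,
      hE2 m hm _ (Finset.mem_image_of_mem _ (Finset.mem_univ i))]
  obtain ⟨φ, hφ, hφi⟩ := seq_in I hI (E1 ∪ E2)
  have hφ1 : ∀ m, φ m ∉ E1 := fun m h => (hφ m).2 (Finset.mem_union_left _ h)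
  have hφ2 : ∀ m, φ m ∉ E2 := fun m h => (hφ m).2 (Finset.mem_union_right _ h)
  choose c θ hθ' hθc using fun m => hη (φ m) (hφ m).1
  have hc : ∀ m, ‖c m‖ = g := fun m => hE1 _ (hφ1 m) _ _ (hθ' m)
  have key : ∀ M : ℕ, 0 < M → t ^ 2 * (s₂ - s₁) ≤ (Ep / N ^ 2 + T / N +
      2 / (N * D) * ∑ i, Real.log ‖H.F (p i)‖ + H.Res / D ^ 2) +
      (T - (H.Res + 2 * D * Real.log g) / D ^ 2) / M := by
    intro M hM
    have hMpos : (0 : ℝ) < M := by exact_mod_cast hM
    -- the vectors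
    let V : Option (ι ⊕ (Fin M × Fin H.d)) → Ω × Ω := fun o =>
      o.elim y (Sum.elim p (fun q : Fin M × Fin H.d => θ q.1.1 q.2))
    have hV : ∀ o, ‖V o‖ = 1 := by
      rintro (_ | i | q)
      · exact hy
      · exact hp i
      · exact (hθ' _).2.1 _
    have h1 := energy_test (fun i j => kw T (V i) (V j))
      (Sum.elim (fun _ => 1 / N) (fun _ => -(1 / (M * D)))) 0 s₁ s₂ h12 (by
        simp only [Fintype.sum_sum_type, Sum.elim_inl, Sum.elim_inr, Finset.sum_const,
          Finset.card_univ, Fintype.card_prod, Fintype.card_fin, nsmul_eq_mul, Nat.cast_mul]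
        rw [← hN, ← hD]
        field_simp
        ring) (fun i j => kw_symm T _ _) (fun i j l => kw_ultra T (hV i) (hV j) (hV l))
      (fun i j => kw_nonneg hT0 (hV i) (hV j)) (by
        show s₂ ≤ kw T y y
        have : kw T y y = T := by unfold kw; simp [wd_self]
        rw [this]; exact hs2)
    simp only [Fintype.sum_sum_type, Sum.elim_inl, Sum.elim_inr] at h1
    -- the test
    have hU : (∑ i, 1 / N * win s₁ s₂ (kw T (V (some (Sum.inl i))) (V none)) +
        ∑ q : Fin M × Fin H.d, -(1 / (M * D)) *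
          win s₁ s₂ (kw T (V (some (Sum.inr q))) (V none))) ≤ -(t * (s₂ - s₁)) := by
      have hL : 0 ≤ s₂ - s₁ := by linarith
      have u1 : ∑ i, win s₁ s₂ (kw T (p i) y) ≤ (κ - t) * N * (s₂ - s₁) := by
        have v1 : ∀ i, win s₁ s₂ (kw T (p i) y) ≤
            if ‖wd (p i) y‖ < Real.exp (-s₁) then (s₂ - s₁) else 0 := by
          intro i
          split_ifs with h
          · exact win_le _ _ _ h12.le
          · exact (win_low (not_lt.mp h)).le
        refine (Finset.sum_le_sum fun i _ => v1 i).trans ?_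
        rw [← Finset.sum_filter, Finset.sum_const, nsmul_eq_mul]
        exact mul_le_mul_of_nonneg_right hcount hL
      have u2 : ∀ m : Fin M, κ * D * (s₂ - s₁) ≤ ∑ l, win s₁ s₂ (kw T (θ m.1 l) y) := by
        intro m
        have v1 : ∀ l, (if ‖wd (θ m.1 l) y‖ ≤ Real.exp (-s₂) then (s₂ - s₁) else 0) ≤
            win s₁ s₂ (kw T (θ m.1 l) y) := by
          intro l
          split_ifs with h
          · exact (win_high h12.le hs2 h).ge
          · exact win_nonneg _ _ _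
        refine le_trans ?_ (Finset.sum_le_sum fun l _ => v1 l)
        rw [← Finset.sum_filter, Finset.sum_const, nsmul_eq_mul]
        exact mul_le_mul_of_nonneg_right (hθc m.1) hL
      have u3 : M * (κ * D * (s₂ - s₁)) ≤
          ∑ q : Fin M × Fin H.d, win s₁ s₂ (kw T (θ q.1.1 q.2) y) := by
        rw [Fintype.sum_prod_type]
        refine le_trans (le_of_eq ?_) (Finset.sum_le_sum fun m _ => u2 m)
        rw [Finset.sum_const, Finset.card_univ, Fintype.card_fin, nsmul_eq_mul]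
      have e1 : (∑ i, 1 / N * win s₁ s₂ (kw T (V (some (Sum.inl i))) (V none)) +
          ∑ q : Fin M × Fin H.d, -(1 / (M * D)) *
            win s₁ s₂ (kw T (V (some (Sum.inr q))) (V none))) =
          1 / N * ∑ i, win s₁ s₂ (kw T (p i) y) -
            1 / (M * D) * ∑ q : Fin M × Fin H.d, win s₁ s₂ (kw T (θ q.1.1 q.2) y) := by
        rw [← Finset.mul_sum, ← Finset.mul_sum, neg_mul, sub_eq_add_neg]
        rfl
      rw [e1]
      have u4 := mul_le_mul_of_nonneg_left u1 (by positivity : (0 : ℝ) ≤ 1 / N)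
      have u5 := mul_le_mul_of_nonneg_left u3 (by positivity : (0 : ℝ) ≤ 1 / (M * D))
      have u6 : 1 / N * ((κ - t) * N * (s₂ - s₁)) = (κ - t) * (s₂ - s₁) := by
        field_simp
      have u7 : 1 / (M * D) * (M * (κ * D * (s₂ - s₁))) = κ * (s₂ - s₁) := by
        field_simp
      rw [u6] at u4
      rw [u7] at u5
      nlinarith
    have hlow : t ^ 2 * (s₂ - s₁) ≤ (∑ i, 1 / N * win s₁ s₂ (kw T (V (some (Sum.inl i)))
        (V none)) + ∑ q : Fin M × Fin H.d, -(1 / (M * D)) *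
          win s₁ s₂ (kw T (V (some (Sum.inr q))) (V none))) ^ 2 / (s₂ - s₁) := by
      have hL : 0 < s₂ - s₁ := by linarith
      rw [le_div_iff₀ hL]
      have ht' : 0 ≤ t * (s₂ - s₁) := mul_nonneg ht hL.le
      have : (t * (s₂ - s₁)) ^ 2 ≤ (∑ i, 1 / N * win s₁ s₂ (kw T (V (some (Sum.inl i)))
        (V none)) + ∑ q : Fin M × Fin H.d, -(1 / (M * D)) *
          win s₁ s₂ (kw T (V (some (Sum.inr q))) (V none))) ^ 2 := by
        rw [sq_le_sq]
        rw [abs_of_nonneg ht', abs_of_nonpos (by linarith)]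
        linarith
      nlinarith
    have h1 := hlow.trans h1
    have h1 : t ^ 2 * (s₂ - s₁) ≤ ∑ i, (∑ j, 1 / N * (1 / N) * kw T (p i) (p j) +
        ∑ q : Fin M × Fin H.d, 1 / N * -(1 / (M * D)) * kw T (p i) (θ q.1.1 q.2)) +
        ∑ q : Fin M × Fin H.d, (∑ i, -(1 / (M * D)) * (1 / N) * kw T (θ q.1.1 q.2) (p i) +
        ∑ q' : Fin M × Fin H.d, -(1 / (M * D)) * -(1 / (M * D)) *
          kw T (θ q.1.1 q.2) (θ q'.1.1 q'.2)) := h1
    -- the cross sums
    have hcross : ∀ i, ∑ q : Fin M × Fin H.d, kw T (p i) (θ q.1.1 q.2) =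
        M * (-Real.log ‖H.F (p i)‖ + Real.log g) := by
      intro i
      rw [Fintype.sum_prod_type]
      have : ∀ m : Fin M, ∑ l, kw T (p i) (θ m.1 l) = -Real.log ‖H.F (p i)‖ + Real.log g := by
        intro m
        have e1 := hE2 _ (hφ2 m.1) i
        have h2 := HS.sum_kw_eq (hθ' m.1) (hp i) (by rw [e1]; exact HS.F_pos _ (hp i)) T (by
          rw [e1, hc]
          exact hT i)
        rw [h2, e1, hc]
      simp_rw [this]
      rw [Finset.sum_const, Finset.card_univ, Fintype.card_fin, nsmul_eq_mul]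
    have hcross' : ∀ i, ∑ q : Fin M × Fin H.d, kw T (θ q.1.1 q.2) (p i) =
        M * (-Real.log ‖H.F (p i)‖ + Real.log g) := by
      intro i
      rw [← hcross i]
      exact Finset.sum_congr rfl fun q _ => kw_symm T _ _
    have hself : ∑ i, ∑ j, kw T (p i) (p j) ≤ Ep + N * T := by
      have : ∀ i j, kw T (p i) (p j) ≤ (if i = j then 0 else -Real.log ‖wd (p i) (p j)‖) +
          if i = j then T else 0 := by
        intro i j
        by_cases hij : i = j
        · simp only [hij, if_true, zero_add]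
          exact kw_le T _ _
        · simp only [hij, if_false, add_zero]
          exact kw_le_log (hpp i j hij)
      refine (Finset.sum_le_sum fun i _ => Finset.sum_le_sum fun j _ => this i j).trans
        (le_of_eq ?_)
      simp only [Finset.sum_add_distrib, Finset.sum_ite_eq, Finset.mem_univ, if_true,
        Finset.sum_const, Finset.card_univ, nsmul_eq_mul]
      rw [← hEp, ← hN]
    have hθθ : ∑ q : Fin M × Fin H.d, ∑ q' : Fin M × Fin H.d,
        kw T (θ q.1.1 q.2) (θ q'.1.1 q'.2) ≤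
        M * (M - 1) * (H.Res + 2 * D * Real.log g) + M * (D ^ 2 * T) := by
      have h2 : ∀ m m' : Fin M, ∑ l, ∑ l', kw T (θ m.1 l) (θ m'.1 l') ≤
          (H.Res + 2 * D * Real.log g) +
          if m = m' then (D ^ 2 * T - (H.Res + 2 * D * Real.log g)) else 0 := by
        intro m m'
        by_cases hmm : m = m'
        · rw [if_pos hmm]
          have : ∑ l, ∑ l', kw T (θ m.1 l) (θ m'.1 l') ≤ D ^ 2 * T := by
            refine (Finset.sum_le_sum fun l _ => Finset.sum_le_sum fun l' _ =>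
              kw_le T _ _).trans (le_of_eq ?_)
            simp only [Finset.sum_const, Finset.card_univ, Fintype.card_fin, nsmul_eq_mul]
            rw [← hD]
            ring
          linarith
        · rw [if_neg hmm, add_zero]
          have hne : φ m.1 ≠ φ m'.1 := hφi _ _ fun h => hmm (Fin.ext h)
          exact HS.block_le g (hθ' m.1) (hθ' m'.1) (B.unit _) (B.sep _ _ hne) (hc _) (hc _) T
      have h3 : ∑ q : Fin M × Fin H.d, ∑ q' : Fin M × Fin H.d,
          kw T (θ q.1.1 q.2) (θ q'.1.1 q'.2) =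
          ∑ m : Fin M, ∑ m' : Fin M, ∑ l, ∑ l', kw T (θ m.1 l) (θ m'.1 l') := by
        rw [Fintype.sum_prod_type]
        apply Finset.sum_congr rfl
        intro m _
        simp_rw [Fintype.sum_prod_type]
        rw [Finset.sum_comm]
      rw [h3]
      refine (Finset.sum_le_sum fun m _ => Finset.sum_le_sum fun m' _ => h2 m m').trans
        (le_of_eq ?_)
      simp only [Finset.sum_add_distrib, Finset.sum_ite_eq, Finset.mem_univ, if_true,
        Finset.sum_const, Finset.card_univ, Fintype.card_fin, nsmul_eq_mul]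
      ring
    -- assemble
    have e1 : ∑ i, (∑ j, 1 / N * (1 / N) * kw T (p i) (p j) +
        ∑ q : Fin M × Fin H.d, 1 / N * -(1 / (M * D)) * kw T (p i) (θ q.1.1 q.2)) +
        ∑ q : Fin M × Fin H.d, (∑ i, -(1 / (M * D)) * (1 / N) * kw T (θ q.1.1 q.2) (p i) +
        ∑ q' : Fin M × Fin H.d, -(1 / (M * D)) * -(1 / (M * D)) *
          kw T (θ q.1.1 q.2) (θ q'.1.1 q'.2)) =
        (1 / N) ^ 2 * ∑ i, ∑ j, kw T (p i) (p j) -
        2 * (1 / N * (1 / (M * D))) * ∑ i, (M * (-Real.log ‖H.F (p i)‖ + Real.log g)) +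
        (1 / (M * D)) ^ 2 * ∑ q : Fin M × Fin H.d, ∑ q' : Fin M × Fin H.d,
          kw T (θ q.1.1 q.2) (θ q'.1.1 q'.2) := by
      have a1 : ∑ q : Fin M × Fin H.d, ∑ i, -(1 / (M * D)) * (1 / N) *
          kw T (θ q.1.1 q.2) (p i) = -(1 / (M * D)) * (1 / N) *
          ∑ i, (M * (-Real.log ‖H.F (p i)‖ + Real.log g)) := by
        rw [Finset.sum_comm, Finset.mul_sum]
        apply Finset.sum_congr rfl
        intro i _
        rw [← Finset.mul_sum, hcross']
      rw [Finset.sum_add_distrib, Finset.sum_add_distrib, a1]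
      simp_rw [← Finset.mul_sum, hcross]
      rw [← Finset.mul_sum]
      ring
    rw [e1] at h1
    have h2 : (1 / N) ^ 2 * ∑ i, ∑ j, kw T (p i) (p j) ≤ (1 / N) ^ 2 * (Ep + N * T) :=
      mul_le_mul_of_nonneg_left hself (sq_nonneg _)
    have h3 := mul_le_mul_of_nonneg_left hθθ (sq_nonneg (1 / ((M : ℝ) * D)))
    have h4 : ∑ i, ((M : ℝ) * (-Real.log ‖H.F (p i)‖ + Real.log g)) =
        M * (-∑ i, Real.log ‖H.F (p i)‖ + N * Real.log g) := by
      rw [← Finset.mul_sum, Finset.sum_add_distrib, Finset.sum_neg_distrib, Finset.sum_const,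
        Finset.card_univ, nsmul_eq_mul]
    rw [h4] at h1
    have h5 : t ^ 2 * (s₂ - s₁) ≤ (1 / N) ^ 2 * (Ep + N * T) -
        2 * (1 / N * (1 / (M * D))) * (M * (-∑ i, Real.log ‖H.F (p i)‖ + N * Real.log g)) +
        (1 / (M * D)) ^ 2 * (M * (M - 1) * (H.Res + 2 * D * Real.log g) + M * (D ^ 2 * T)) := by
      linarith
    have h6 : (1 / N) ^ 2 * (Ep + N * T) -
        2 * (1 / N * (1 / (M * D))) * (M * (-∑ i, Real.log ‖H.F (p i)‖ + N * Real.log g)) +
        (1 / (M * D)) ^ 2 * (M * (M - 1) * (H.Res + 2 * D * Real.log g) + M * (D ^ 2 * T)) =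
        (Ep / N ^ 2 + T / N + 2 / (N * D) * ∑ i, Real.log ‖H.F (p i)‖ + H.Res / D ^ 2) +
        (T - (H.Res + 2 * D * Real.log g) / D ^ 2) / M := by
      field_simp
      ring
    rw [h6] at h5
    exact h5
  exact Sys.limit_le key

end Pool.Agent.Y328.BI
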